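import Pool.Agent.X292.CY.Irr
import Mathlib.FieldTheory.Perfect

/-!
# Squarefree polynomials: the generic curve in a coordinate direction is smooth
-/

set_option autoImplicit false
set_option linter.unusedVariables false
set_option linter.unusedSectionVars false

namespace Pool.Agent.X296.Sqf

open Pool.Agent.Y720.MZ Pool.Agent.X292.CY

/-- two coprime polynomials over the fraction field -/
theorem gauss2 {R : Type*} [CommRing R] [IsDomain R] {f g : Polynomial R}
    (hd : f.natDegree ≠ 0)
    (hcop : IsCoprime (f.map (algebraMap R (FractionRing R)))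
      (g.map (algebraMap R (FractionRing R)))) :
    ∃ (a b : Polynomial R) (ρ : R), ρ ≠ 0 ∧ f * a + g * b = Polynomial.C ρ := by
  classical
  set L := FractionRing R
  obtain ⟨a, b, -, -, hab⟩ := Polynomial.exists_mul_add_mul_eq_C_resultant f g le_rfl le_rfl
    (Or.inl hd)
  refine ⟨a, b, _, fun h0 => ?_, hab⟩
  have h1 := Polynomial.resultant_ne_zero _ _ hcop
  apply h1
  have h2 := Polynomial.resultant_map_map f g f.natDegree g.natDegree (algebraMap R L)
  rw [Polynomial.natDegree_map_eq_of_injective (IsFractionRing.injective R L),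
    Polynomial.natDegree_map_eq_of_injective (IsFractionRing.injective R L), h2, h0, map_zero]

/-- a primitive polynomial which is associated to a polynomial over the fraction field -/
theorem exists_prim {R : Type*} [CommRing R] [IsDomain R] [NormalizedGCDMonoid R]
    {q : Polynomial (FractionRing R)} (hq : q ≠ 0) :
    ∃ (p : Polynomial R) (c : FractionRing R), c ≠ 0 ∧ p.IsPrimitive ∧
      q = Polynomial.C c * p.map (algebraMap R (FractionRing R)) := by
  obtain ⟨b, b0, hb⟩ := IsLocalization.integerNormalization_spec (nonZeroDivisors R) q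
  set P := IsLocalization.integerNormalization (nonZeroDivisors R) q with hP
  have hb' : algebraMap R (FractionRing R) b ≠ 0 := by
    rw [Ne, map_eq_zero_iff _ (IsFractionRing.injective R (FractionRing R))]
    exact nonZeroDivisors.ne_zero b0
  have h1 : P.map (algebraMap R (FractionRing R)) =
      Polynomial.C (algebraMap R (FractionRing R) b) * q := by
    rw [hb]
    ext i
    rw [Polynomial.coeff_smul, Polynomial.coeff_C_mul, Algebra.smul_def]
  have h2 := P.eq_C_content_mul_primPart
  have hP0 : P.content ≠ 0 := by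
    intro h0
    rw [h0, Polynomial.C_0, zero_mul] at h2
    rw [h2, Polynomial.map_zero] at h1
    rcases mul_eq_zero.1 h1.symm with h3 | h3
    · exact hb' (Polynomial.C_eq_zero.1 h3)
    · exact hq h3
  have hc' : algebraMap R (FractionRing R) P.content ≠ 0 := by
    rw [Ne, map_eq_zero_iff _ (IsFractionRing.injective R (FractionRing R))]
    exact hP0
  refine ⟨P.primPart, algebraMap R (FractionRing R) P.content /
    algebraMap R (FractionRing R) b, div_ne_zero hc' hb', P.isPrimitive_primPart, ?_⟩
  have h3 : Polynomial.C (algebraMap R (FractionRing R) b) * q =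
      Polynomial.C (algebraMap R (FractionRing R) P.content) *
        P.primPart.map (algebraMap R (FractionRing R)) := by
    rw [← h1]
    conv_lhs => rw [h2]
    rw [Polynomial.map_mul, Polynomial.map_C]
  have h4 : q = Polynomial.C (algebraMap R (FractionRing R) b)⁻¹ *
      (Polynomial.C (algebraMap R (FractionRing R) b) * q) := by
    rw [← mul_assoc, ← Polynomial.C_mul, inv_mul_cancel₀ hb', Polynomial.C_1, one_mul]
  rw [h4, h3, ← mul_assoc, ← Polynomial.C_mul]
  congr 2
  rw [div_eq_inv_mul]

/-- a squarefree polynomial is squarefree over the fraction field -/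
theorem sqf_map {R : Type*} [CommRing R] [IsDomain R] [UniqueFactorizationMonoid R]
    {f : Polynomial R} (hf : Squarefree f) :
    Squarefree (f.map (algebraMap R (FractionRing R))) := by
  classical
  obtain ⟨_⟩ : Nonempty (NormalizedGCDMonoid R) := inferInstance
  have hne : f.map (algebraMap R (FractionRing R)) ≠ 0 := by
    rw [Ne, Polynomial.map_eq_zero_iff (IsFractionRing.injective R (FractionRing R))]
    exact hf.ne_zero
  rw [squarefree_iff_irreducible_sq_not_dvd_of_ne_zero hne]
  intro q hq hqq
  obtain ⟨p, c, hc, hp, rfl⟩ := exists_prim hq.ne_zero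
  have h1 : (p * p).map (algebraMap R (FractionRing R)) ∣
      f.map (algebraMap R (FractionRing R)) := by
    refine dvd_trans ?_ hqq
    rw [Polynomial.map_mul]
    exact mul_dvd_mul (dvd_mul_left _ _) (dvd_mul_left _ _)
  have h2 : p * p ∣ f := (hp.mul hp).dvd_of_fraction_map_dvd_fraction_map h1
  have h3 := hf p h2
  apply hq.not_isUnit
  exact IsUnit.mul (Polynomial.isUnit_C.2 (isUnit_iff_ne_zero.2 hc))
    (h3.map (Polynomial.mapRingHom (algebraMap R (FractionRing R))))

section sqf

variable {K : Type*} [Field K] [CharZero K] {α : Type*} [Fintype α] [DecidableEq α]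

/-- the generic curve is smooth, of the right degree -/
theorem exists_sep {f : MvPolynomial α K} (hf : Squarefree f) {j : α} (hj : f.degreeOf j ≠ 0) :
    ∃ z : α → K, (rst f z (Pi.single j 1)).Separable ∧
      (rst f z (Pi.single j 1)).natDegree = f.degreeOf j := by
  set g := EE j f with hg
  have hgi : Squarefree g := by
    intro x hx
    have h1 : (EE j).symm x * (EE j).symm x ∣ f := by
      rw [← map_mul]
      have h2 := map_dvd (EE j).symm hx
      rwa [hg, AlgEquiv.symm_apply_apply] at h2
    have h3 := (hf _ h1).map (EE j)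
    rwa [AlgEquiv.apply_symm_apply] at h3
  have hgd : g.natDegree ≠ 0 := by rw [hg, EE_natDegree]; exact hj
  have hcz : CharZero (FractionRing (MvPolynomial {i // i ≠ j} K)) :=
    charZero_of_injective_algebraMap
      (IsFractionRing.injective (MvPolynomial {i // i ≠ j} K)
        (FractionRing (MvPolynomial {i // i ≠ j} K)))
  have hsep : (g.map (algebraMap _ (FractionRing (MvPolynomial {i // i ≠ j} K)))).Separable :=
    PerfectField.separable_iff_squarefree.2 (sqf_map hgi)
  obtain ⟨a, b, ρ, hρ, hab⟩ := gauss2 (g := Polynomial.derivative g) hgd (by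
    rw [← Polynomial.derivative_map]
    exact hsep)
  have hlc : g.leadingCoeff ≠ 0 := by
    rw [Ne, Polynomial.leadingCoeff_eq_zero]
    exact hgi.ne_zero
  obtain ⟨y, hy⟩ : ∃ y : {i // i ≠ j} → K, MvPolynomial.eval y (ρ * g.leadingCoeff) ≠ 0 := by
    by_contra hcon
    push Not at hcon
    apply mul_ne_zero hρ hlc
    apply MvPolynomial.funext
    intro y
    rw [hcon y, map_zero]
  rw [map_mul] at hy
  obtain ⟨hy1, hy2⟩ := ne_zero_and_ne_zero_of_mul hy
  refine ⟨ext0 j y, ?_, ?_⟩
  · rw [rst_ext0, ← hg, Polynomial.separable_def, Polynomial.derivative_map]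
    have h1 := congrArg (Polynomial.map (MvPolynomial.eval y)) hab
    rw [Polynomial.map_add, Polynomial.map_mul, Polynomial.map_mul, Polynomial.map_C] at h1
    have hu : IsUnit (MvPolynomial.eval y ρ) := isUnit_iff_ne_zero.2 hy1
    refine ⟨a.map (MvPolynomial.eval y) * Polynomial.C (MvPolynomial.eval y ρ)⁻¹,
      b.map (MvPolynomial.eval y) * Polynomial.C (MvPolynomial.eval y ρ)⁻¹, ?_⟩
    have h2 : Polynomial.C (MvPolynomial.eval y ρ) * Polynomial.C (MvPolynomial.eval y ρ)⁻¹ =
        (1 : Polynomial K) := by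
      rw [← Polynomial.C_mul, mul_inv_cancel₀ hy1, Polynomial.C_1]
    rw [← h2, ← h1]
    ring
  · rw [rst_ext0, ← hg, Polynomial.natDegree_map_of_leadingCoeff_ne_zero _ hy2, hg, EE_natDegree]

/-- the condition for two variables -/
theorem nonprop {f p : MvPolynomial α K} (hf : Squarefree f) (hp : Irreducible p) (hpf : p ∣ f)
    {i j : α} (hi : p.degreeOf i ≠ 0) (hj : p.degreeOf j ≠ 0) :
    f * MvPolynomial.pderiv i (MvPolynomial.pderiv j f) ≠
      MvPolynomial.pderiv i f * MvPolynomial.pderiv j f := by
  intro h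
  have hpr : Prime p := UniqueFactorizationMonoid.irreducible_iff_prime.1 hp
  obtain ⟨q, rfl⟩ := hpf
  have hq : ¬ p ∣ q := fun hpq => hp.not_isUnit (hf p (mul_dvd_mul_left p hpq))
  have key : ∀ k : α, p.degreeOf k ≠ 0 → ¬ p ∣ MvPolynomial.pderiv k (p * q) := by
    intro k hk h1
    rw [Derivation.leibniz, smul_eq_mul, smul_eq_mul] at h1
    have h2 : p ∣ q * MvPolynomial.pderiv k p := (dvd_add_right (dvd_mul_right p _)).1 h1
    rcases hpr.dvd_or_dvd h2 with h3 | h3
    · exact hq h3
    · exact (pderiv_lt hk).2 h3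
  rcases hpr.dvd_or_dvd ((dvd_mul_right p q).trans ⟨_, h.symm⟩) with h1 | h1
  · exact key i hi h1
  · exact key j hj h1

theorem NK_ne_sqf {f : MvPolynomial α K} [Nonempty α] (hf : Squarefree f)
    (hd : ∀ j, 3 ≤ f.degreeOf j ∧ f.degreeOf j ≤ 4)
    (hij : ∀ i j, i ≠ j → ∃ p, Irreducible p ∧ p ∣ f ∧ p.degreeOf i ≠ 0 ∧ p.degreeOf j ≠ 0) :
    NK f ≠ 0 := by
  refine NK_ne (fun j => ⟨(hd j).1, (hd j).2, exists_sep hf ?_⟩) fun i j h => ?_
  · have := (hd j).1; omega
  · obtain ⟨p, h1, h2, h3, h4⟩ := hij i j h
    exact nonprop hf h1 h2 h3 h4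

end sqf

end Pool.Agent.X296.Sqf
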